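import Mathlib

import Pool.Agent.Helper40.CX.H70VP.Basic
import Pool.Agent.Helper40.CX.Good

namespace CX

/-!
# Values of functions at places
-/

namespace VF

open VC VP Function

universe u

variable {k K : Type u} [Field k] [Field K] [Algebra k K]

/-- The function `x` has the value `c` at the place `v`. -/
def IsRes (v : Place k K) (x : K) (c : k) : Prop := x - algebraMap k K c ∈ v.ring.nonunits

lemma nonunits_add {R : ValuationSubring K} {x y : K} (hx : x ∈ R.nonunits)
    (hy : y ∈ R.nonunits) : x + y ∈ R.nonunits := by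
  obtain ⟨ha, ha'⟩ := (ValuationSubring.mem_nonunits_iff_exists_mem_maximalIdeal).mp hx
  obtain ⟨hb, hb'⟩ := (ValuationSubring.mem_nonunits_iff_exists_mem_maximalIdeal).mp hy
  rw [ValuationSubring.mem_nonunits_iff_exists_mem_maximalIdeal]
  exact ⟨R.add_mem _ _ ha hb, (IsLocalRing.maximalIdeal R).add_mem ha' hb'⟩

lemma nonunits_mul {R : ValuationSubring K} {x y : K} (hx : x ∈ R)
    (hy : y ∈ R.nonunits) : x * y ∈ R.nonunits := by
  obtain ⟨hb, hb'⟩ := (ValuationSubring.mem_nonunits_iff_exists_mem_maximalIdeal).mp hy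
  rw [ValuationSubring.mem_nonunits_iff_exists_mem_maximalIdeal]
  exact ⟨R.mul_mem _ _ hx hb, (IsLocalRing.maximalIdeal R).mul_mem_left ⟨x, hx⟩ hb'⟩

lemma nonunits_zero {R : ValuationSubring K} : (0 : K) ∈ R.nonunits :=
  (ValuationSubring.mem_nonunits_iff_or _).mpr (Or.inl rfl)

lemma nonunits_le {R : ValuationSubring K} {x : K} (hx : x ∈ R.nonunits) : x ∈ R :=
  ValuationSubring.nonunits_subset hx

lemma one_notMem {R : ValuationSubring K} : (1 : K) ∉ R.nonunits := by
  rw [ValuationSubring.mem_nonunits_iff_or]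
  push Not
  refine ⟨one_ne_zero, ?_⟩
  rw [inv_one]; exact R.one_mem

variable {v : Place k K} {x y : K} {c d : k}

lemma IsRes.mem (h : IsRes v x c) : x ∈ v.ring := by
  have := v.ring.add_mem _ _ (nonunits_le h) (v.algebraMap_mem c)
  rwa [sub_add_cancel] at this

lemma isRes_const (c : k) : IsRes v (algebraMap k K c) c := by
  unfold IsRes; rw [sub_self]; exact nonunits_zero

lemma isRes_zero : IsRes v (0 : K) (0 : k) := by
  have := isRes_const (v := v) (0 : k)
  rwa [map_zero] at this

lemma isRes_one : IsRes v (1 : K) (1 : k) := by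
  have := isRes_const (v := v) (1 : k)
  rwa [map_one] at this

lemma IsRes.add (h : IsRes v x c) (h' : IsRes v y d) : IsRes v (x + y) (c + d) := by
  unfold IsRes at *
  have := nonunits_add h h'
  rw [map_add]
  convert this using 1; ring

lemma IsRes.mul (h : IsRes v x c) (h' : IsRes v y d) : IsRes v (x * y) (c * d) := by
  have h1 := nonunits_mul h.mem h'
  have h2 := nonunits_mul (v.algebraMap_mem d) h
  have := nonunits_add h1 h2
  unfold IsRes at *
  rw [map_mul]
  convert this using 1; ring

lemma IsRes.neg (h : IsRes v x c) : IsRes v (-x) (-c) := by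
  have := (isRes_const (v := v) (-1 : k)).mul h
  simpa using this

lemma IsRes.sub (h : IsRes v x c) (h' : IsRes v y d) : IsRes v (x - y) (c - d) := by
  rw [sub_eq_add_neg, sub_eq_add_neg]; exact h.add h'.neg

lemma IsRes.pow (h : IsRes v x c) (n : ℕ) : IsRes v (x ^ n) (c ^ n) := by
  induction n with
  | zero => simpa using isRes_one
  | succ n ih => rw [pow_succ, pow_succ]; exact ih.mul h

lemma IsRes.sum {ι : Type*} (s : Finset ι) {f : ι → K} {g : ι → k}
    (h : ∀ i ∈ s, IsRes v (f i) (g i)) : IsRes v (∑ i ∈ s, f i) (∑ i ∈ s, g i) := by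
  classical
  induction s using Finset.induction_on with
  | empty => simpa using isRes_zero
  | insert a s ha ih =>
    rw [Finset.sum_insert ha, Finset.sum_insert ha]
    exact (h a (Finset.mem_insert_self _ _)).add
      (ih (fun i hi => h i (Finset.mem_insert_of_mem hi)))

lemma IsRes.unique (h : IsRes v x c) (h' : IsRes v x d) : c = d := residue_unique v h h'

lemma IsRes.poly {p : Polynomial k} (h : IsRes v x c) :
    IsRes v (Polynomial.aeval x p) (p.eval c) := by
  induction p using Polynomial.induction_on with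
  | C a => rw [Polynomial.aeval_C, Polynomial.eval_C]; exact isRes_const a
  | add p q hp hq => rw [map_add, Polynomial.eval_add]; exact hp.add hq
  | monomial n a _ =>
    simp only [map_mul, Polynomial.aeval_C, map_pow, Polynomial.aeval_X, Polynomial.eval_mul,
      Polynomial.eval_C, Polynomial.eval_pow, Polynomial.eval_X]
    exact (isRes_const a).mul (h.pow _)

/-- A function with nonzero value is invertible at the place. -/
lemma IsRes.inv_mem (h : IsRes v x c) (hc : c ≠ 0) : x ≠ 0 ∧ x⁻¹ ∈ v.ring := by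
  have h1 : x ∉ v.ring.nonunits := by
    intro h1
    have h2 : IsRes v x 0 := by unfold IsRes; rwa [map_zero, sub_zero]
    exact hc (h.unique h2)
  rw [ValuationSubring.mem_nonunits_iff_or] at h1
  push Not at h1
  exact h1

lemma isRes_zero_iff : IsRes v x 0 ↔ x ∈ v.ring.nonunits := by
  unfold IsRes; rw [map_zero, sub_zero]

lemma IsRes.ne_zero (h : IsRes v x c) (hc : c ≠ 0) : x ≠ 0 := (h.inv_mem hc).1

variable [IsAlgClosed k] [Good k]

lemma exists_res (hK : IsFunctionField k K) (hx : x ∈ v.ring) : ∃ c, IsRes v x c :=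
  exists_residue hK v hx

lemma mem_of_pow {R : ValuationSubring K} {n : ℕ} (hn : n ≠ 0) (h : x ^ n ∈ R) : x ∈ R := by
  by_contra hx
  have h0 : x ≠ 0 := by rintro rfl; exact hx R.zero_mem
  have h1 : x⁻¹ ∈ R := (R.mem_or_inv_mem x).resolve_left hx
  apply hx
  obtain ⟨n, rfl⟩ := Nat.exists_eq_succ_of_ne_zero hn
  have h2 := R.mul_mem _ _ h (pow_mem h1 n)
  have e : x ^ (n.succ) * x⁻¹ ^ n = x := by
    rw [pow_succ', inv_pow, mul_assoc, mul_inv_cancel₀ (pow_ne_zero _ h0), mul_one]
  rwa [e] at h2

/-- The values of an `n`-th root. -/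
lemma exists_res_of_pow (hK : IsFunctionField k K) {n : ℕ} (hn : n ≠ 0)
    (h : IsRes v (x ^ n) c) : ∃ e, IsRes v x e ∧ e ^ n = c := by
  obtain ⟨e, he⟩ := exists_res hK (mem_of_pow hn h.mem)
  exact ⟨e, he, (he.pow n).unique h⟩

end VF

end CX
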