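import Mathlib

import Pool.Agent.Helper40.CX.H26VC.Chow
import Pool.Agent.Helper40.CX.H70VP.Pencil
import Pool.Agent.Helper40.CX.H83VF.Res
import Pool.Agent.Helper40.CX.Good

namespace CX

/-!
# Functions on the points which vanish on cycles rationally equivalent to zero
-/

set_option linter.unusedSectionVars false

namespace VF

open VC VP Function

universe u

section kills

variable {k : Type u} [Field k]

/-- The function `ψ` on the points of `X`, extended linearly to cycles, vanishes on the cycles
rationally equivalent to zero. -/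
def Kills (X : Variety k) (ψ : X.Pt → ℂ) : Prop :=
  ∀ z ∈ X.Rat, Finsupp.linearCombination ℤ ψ z = 0

variable {X Y : Variety k} {ψ φ : X.Pt → ℂ}

lemma Kills.add (h : Kills X ψ) (h' : Kills X φ) : Kills X (fun p => ψ p + φ p) := by
  intro z hz
  have e : Finsupp.linearCombination ℤ (fun p => ψ p + φ p) =
      Finsupp.linearCombination ℤ ψ + Finsupp.linearCombination ℤ φ := by
    apply Finsupp.lhom_ext
    intro p n
    simp [Finsupp.linearCombination_single]
  rw [e, LinearMap.add_apply, h z hz, h' z hz, add_zero]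

lemma Kills.smul (c : ℂ) (h : Kills X ψ) : Kills X (fun p => c * ψ p) := by
  intro z hz
  have e : ∀ z, Finsupp.linearCombination ℤ (fun p => c * ψ p) z =
      c * Finsupp.linearCombination ℤ ψ z := by
    intro z
    induction z using Finsupp.induction_linear with
    | zero => simp
    | add a b ha hb => rw [map_add, map_add, ha, hb, mul_add]
    | single p n =>
      rw [Finsupp.linearCombination_single, Finsupp.linearCombination_single, mul_smul_comm]
  rw [e, h z hz, mul_zero]

lemma Kills.zero : Kills X (fun _ => (0 : ℂ)) := by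
  intro z hz
  clear hz
  induction z using Finsupp.induction_linear with
  | zero => simp
  | add a b ha hb => rw [map_add, ha, hb, add_zero]
  | single p n => rw [Finsupp.linearCombination_single, smul_zero]

lemma Kills.sum {ι : Type*} (s : Finset ι) {f : ι → X.Pt → ℂ} (h : ∀ i ∈ s, Kills X (f i)) :
    Kills X (fun p => ∑ i ∈ s, f i p) := by
  classical
  induction s using Finset.induction_on with
  | empty => simpa using Kills.zero
  | insert a s ha ih =>
    simp only [Finset.sum_insert ha]
    exact (h a (Finset.mem_insert_self _ _)).add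
      (ih (fun i hi => h i (Finset.mem_insert_of_mem hi)))

variable [IsAlgClosed k] [Good k]

lemma Kills.comp {ψ : Y.Pt → ℂ} {r : X.Pt → Y.Pt} (h : Kills Y ψ) (hr : Induced X Y r) :
    Kills X (fun p => ψ (r p)) := by
  intro z hz
  have := h _ (map_rat X Y r hr hz)
  rw [Finsupp.linearCombination_mapDomain] at this
  exact this

lemma Induced.prodMap {X' Y' : Variety k} {f : X.Pt → Y.Pt} {g : X'.Pt → Y'.Pt}
    (hf : Induced X Y f) (hg : Induced X' Y' g) :
    Induced (X.prod X') (Y.prod Y') (Prod.map f g) := by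
  intro K _ _ hK c
  obtain ⟨a, ha⟩ := hf K hK c.1
  obtain ⟨b, hb⟩ := hg K hK c.2
  exact ⟨(a, b), fun v => Prod.ext (ha v) (hb v)⟩

omit [IsAlgClosed k] [Good k] in
lemma Induced.swap : Induced (X.prod Y) (Y.prod X) Prod.swap := by
  intro K _ _ hK c
  exact ⟨(c.2, c.1), fun v => rfl⟩

omit [IsAlgClosed k] [Good k] in
lemma Induced.id : Induced X X (fun p => p) := by
  intro K _ _ hK c
  exact ⟨c, fun v => rfl⟩

lemma Kills.gen (h : Kills X ψ) {K : Type u} [Field K] [Algebra k K] (hK : IsFunctionField k K)
    (c : X.Mor K) {f : K} (hf : f ≠ 0) :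
    ∑ v ∈ (finite_support_ord hK hf).toFinset, (ord v.ring f : ℂ) * ψ (X.eval hK c v) = 0 := by
  have := h _ (gen_mem X hK c hf)
  rw [map_sum] at this
  rw [← this]
  apply Finset.sum_congr rfl
  intro v _
  rw [Finsupp.linearCombination_single, zsmul_eq_mul]

lemma sub_mem_of_div {K : Type u} [Field K] [Algebra k K] {v : Place k K} {τ : K} {a b : k}
    (hb : τ - algebraMap k K b ≠ 0)
    (h : (τ - algebraMap k K a) / (τ - algebraMap k K b) ∈ v.ring.nonunits) :
    IsRes v τ a := by
  set f := (τ - algebraMap k K a) / (τ - algebraMap k K b) with hf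
  have h1 : IsRes v (f - 1) (-1 : k) := by
    have := (isRes_zero_iff.mpr h).sub (isRes_one (v := v))
    rwa [zero_sub] at this
  have h2 := h1.inv_mem (neg_ne_zero.mpr one_ne_zero)
  have e : (f - 1) * (τ - algebraMap k K b) = algebraMap k K (b - a) := by
    rw [hf, map_sub, sub_mul, div_mul_cancel₀ _ hb]; ring
  have h3 : τ - algebraMap k K b ∈ v.ring := by
    have : τ - algebraMap k K b = (f - 1)⁻¹ * algebraMap k K (b - a) := by
      rw [← e, ← mul_assoc, inv_mul_cancel₀ h2.1, one_mul]
    rw [this]
    exact v.ring.mul_mem _ _ h2.2 (v.algebraMap_mem _)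
  have h4 := nonunits_mul h3 h
  unfold IsRes
  convert h4 using 1
  rw [hf, mul_comm, div_mul_cancel₀ _ hb]

/-- If the function takes the value `A` over `τ = a` and the value `B` over `τ = b`, then
`A = B`. -/
theorem path (h : Kills X ψ) {K : Type u} [Field K] [Algebra k K] (hK : IsFunctionField k K)
    (c : X.Mor K) {τ : K} (hτ : Transcendental k τ) {a b : k} (hab : a ≠ b) {A B : ℂ}
    (hA : ∀ v, IsRes v τ a → ψ (X.eval hK c v) = A)
    (hB : ∀ v, IsRes v τ b → ψ (X.eval hK c v) = B) : A = B := by
  classical
  have hne : ∀ d : k, τ - algebraMap k K d ≠ 0 := by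
    intro d h0
    apply hτ
    rw [sub_eq_zero.mp h0]
    exact isAlgebraic_algebraMap d
  set f : K := (τ - algebraMap k K a) / (τ - algebraMap k K b) with hf
  have hf0 : f ≠ 0 := div_ne_zero (hne a) (hne b)
  have h1 := h.gen hK c hf0
  have h2 := degree_zero hK hf0
  have h2' : ∑ v ∈ (finite_support_ord hK hf0).toFinset, (ord v.ring f : ℂ) = 0 := by
    exact_mod_cast congrArg (Int.cast : ℤ → ℂ) h2
  have hpos : ∀ v : Place k K, 0 < ord v.ring f → IsRes v τ a := by
    intro v hv
    rw [ord_pos_iff hK v hf0] at hv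
    exact sub_mem_of_div (hne b) hv
  have hneg : ∀ v : Place k K, ord v.ring f < 0 → IsRes v τ b := by
    intro v hv
    have hv' : f⁻¹ ∈ v.ring.nonunits := by
      rw [← ord_pos_iff hK v (inv_ne_zero hf0), ord_inv hK v hf0]
      omega
    rw [hf, inv_div] at hv'
    exact sub_mem_of_div (hne a) hv'
  have h3 : ∑ v ∈ (finite_support_ord hK hf0).toFinset,
      (ord v.ring f : ℂ) * (ψ (X.eval hK c v) - B) = 0 := by
    simp only [mul_sub, Finset.sum_sub_distrib, ← Finset.sum_mul]
    rw [h1, h2', zero_mul, sub_zero]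
  have h4 : ∀ v ∈ (finite_support_ord hK hf0).toFinset,
      (ord v.ring f : ℂ) * (ψ (X.eval hK c v) - B) =
      ((max (ord v.ring f) 0 : ℤ) : ℂ) * (A - B) := by
    intro v _
    rcases lt_trichotomy (ord v.ring f) 0 with hlt | heq | hgt
    · rw [hB v (hneg v hlt), max_eq_right hlt.le]; simp
    · rw [heq]; simp
    · rw [hA v (hpos v hgt), max_eq_left hgt.le]
  rw [Finset.sum_congr rfl h4, ← Finset.sum_mul, mul_eq_zero] at h3
  rcases h3 with h3 | h3
  · exfalso
    have h5 : ∑ v ∈ (finite_support_ord hK hf0).toFinset, max (ord v.ring f) 0 = 0 := by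
      exact_mod_cast h3
    rw [Finset.sum_eq_zero_iff_of_nonneg (fun v _ => le_max_right _ _)] at h5
    have hτa : Transcendental k (τ - algebraMap k K a) := by
      intro h6
      apply hτ
      have := h6.add (isAlgebraic_algebraMap (A := K) a)
      rwa [sub_add_cancel] at this
    obtain ⟨v, hv⟩ := exists_place hK hτa
    have hres : IsRes v τ a := hv
    have hub : IsRes v (τ - algebraMap k K b) (a - b) := hres.sub (isRes_const b)
    have hui := hub.inv_mem (sub_ne_zero.mpr hab)
    have h7 : f ∈ v.ring.nonunits := by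
      rw [hf, div_eq_mul_inv, mul_comm]
      exact nonunits_mul hui.2 hv
    have h8 := (ord_pos_iff hK v hf0).mpr h7
    have h9 := h5 v (by
      rw [Set.Finite.mem_toFinset, Set.mem_ofPred_eq]
      exact h8.ne')
    rw [max_eq_left h8.le] at h9
    exact h8.ne' h9
  · exact sub_eq_zero.mp h3

end kills

end VF

end CX
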