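import Mathlib
import Pool.Agent.Helper40.CX.H26VC.Ext
import Pool.Agent.Helper40.CX.H83VF.Kill
import Pool.Agent.Helper40.CX.Good

namespace CX

/-!
# Auxiliary statements
-/

namespace VF

open VC VP Function

universe u

section

variable {k K : Type u} [Field k] [Field K] [Algebra k K] {r m : ℕ} {v : Place k K}

lemma exists_max (R : ValuationSubring K) (a : Fin r → K) (ha : a ≠ 0) :
    ∃ j, a j ≠ 0 ∧ ∀ i, a i * (a j)⁻¹ ∈ R := by
  classical
  have key : ∀ s : Finset (Fin r), (∃ j ∈ s, a j ≠ 0) → ∃ j ∈ s, a j ≠ 0 ∧
      ∀ i ∈ s, a i * (a j)⁻¹ ∈ R := by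
    intro s
    induction s using Finset.induction_on with
    | empty => rintro ⟨j, hj, -⟩; exact absurd hj (Finset.notMem_empty _)
    | insert l s hl ih =>
      intro hex
      by_cases hs : ∃ j ∈ s, a j ≠ 0
      · obtain ⟨j, hj, hj0, hj'⟩ := ih hs
        rcases R.mem_or_inv_mem (a l * (a j)⁻¹) with h | h
        · refine ⟨j, Finset.mem_insert_of_mem hj, hj0, ?_⟩
          intro i hi
          rcases Finset.mem_insert.mp hi with rfl | hi
          · exact h
          · exact hj' i hi
        · by_cases hl0 : a l = 0
          · refine ⟨j, Finset.mem_insert_of_mem hj, hj0, ?_⟩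
            intro i hi
            rcases Finset.mem_insert.mp hi with rfl | hi
            · rw [hl0, zero_mul]; exact R.zero_mem
            · exact hj' i hi
          · refine ⟨l, Finset.mem_insert_self _ _, hl0, ?_⟩
            intro i hi
            rcases Finset.mem_insert.mp hi with rfl | hi
            · rw [mul_inv_cancel₀ hl0]; exact R.one_mem
            · have e : a i * (a l)⁻¹ = a i * (a j)⁻¹ * (a l * (a j)⁻¹)⁻¹ := by
                rw [mul_inv, inv_inv]
                field_simp
              rw [e]
              exact R.mul_mem _ _ (hj' i hi) h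
      · push Not at hs
        obtain ⟨j, hj, hj0⟩ := hex
        rcases Finset.mem_insert.mp hj with rfl | hj'
        · refine ⟨j, Finset.mem_insert_self _ _, hj0, ?_⟩
          intro i hi
          rcases Finset.mem_insert.mp hi with rfl | hi
          · rw [mul_inv_cancel₀ hj0]; exact R.one_mem
          · rw [hs i hi, zero_mul]; exact R.zero_mem
        · exact absurd (hs j hj') hj0
  obtain ⟨j, hj⟩ := Function.ne_iff.mp ha
  obtain ⟨i, -, hi, hi'⟩ := key Finset.univ ⟨j, Finset.mem_univ j, hj⟩
  exact ⟨i, hi, fun l => hi' l (Finset.mem_univ l)⟩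

end

/-- A function independent of one of the points vanishes on exterior products in which the
corresponding factor has degree zero. -/
lemma lin_ext_zero {n : ℕ} {α : Type u} {Φ : (Fin n → α) → ℂ} {i : Fin n}
    (h : ∀ p x y, Φ (update p i x) = Φ (update p i y)) (a : Fin n → (α →₀ ℤ))
    (ha : (a i).sum (fun _ z => z) = 0) : Finsupp.linearCombination ℤ Φ (ext' a) = 0 := by
  classical
  by_cases hemp : Nonempty α
  swap
  · rw [not_nonempty_iff] at hemp
    have : IsEmpty (Fin n → α) := ⟨fun p => hemp.false (p i)⟩
    have h0 : ext' a = 0 := Subsingleton.elim _ _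
    rw [h0, map_zero]
  obtain ⟨o⟩ := hemp
  let L : MultilinearMap ℤ (fun _ : Fin n => (α →₀ ℤ)) ℂ :=
    (Finsupp.linearCombination ℤ Φ).compMultilinearMap (extM α n)
  let D : (α →₀ ℤ) →ₗ[ℤ] (α →₀ ℤ) := Finsupp.linearCombination ℤ (fun _ => Finsupp.single o 1)
  let f : ∀ _ : Fin n, (α →₀ ℤ) →ₗ[ℤ] (α →₀ ℤ) := fun j => if j = i then D else LinearMap.id
  have hL : L = L.compLinearMap f := by
    apply Module.Basis.ext_multilinear (fun _ => Finsupp.basisSingleOne)
    intro v
    simp only [Finsupp.coe_basisSingleOne]
    rw [MultilinearMap.compLinearMap_apply]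
    have e1 : ∀ j, f j (Finsupp.single (v j) 1) = Finsupp.single (update v i o j) (1 : ℤ) := by
      intro j
      by_cases hj : j = i
      · subst hj
        simp [f, D]
      · simp [f, hj]
    have e2 : (fun j => f j (Finsupp.single (v j) 1)) =
        fun j => Finsupp.single (update v i o j) (1 : ℤ) := funext e1
    rw [e2]
    change Finsupp.linearCombination ℤ Φ (ext' fun j => Finsupp.single (v j) 1) =
      Finsupp.linearCombination ℤ Φ (ext' fun j => Finsupp.single (update v i o j) 1)
    rw [ext'_single, ext'_single, Finsupp.linearCombination_single,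
      Finsupp.linearCombination_single, one_smul, one_smul, h v o (v i), update_eq_self]
  change L a = 0
  rw [hL, MultilinearMap.compLinearMap_apply]
  apply MultilinearMap.map_coord_zero _ i
  simp only [f, if_true, D]
  rw [Finsupp.linearCombination_apply, Finsupp.sum, ← Finset.sum_smul]
  have : ∑ x ∈ (a i).support, (a i) x = 0 := ha
  rw [this, zero_smul]

section

variable {k : Type u} [Field k] [IsAlgClosed k] [Good k]

lemma IsRes.inv {K : Type u} [Field K] [Algebra k K] {v : Place k K} {x : K} {c : k}
    (hK : IsFunctionField k K) (h : IsRes v x c) (hc : c ≠ 0) : IsRes v x⁻¹ c⁻¹ := by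
  obtain ⟨hx, hx'⟩ := h.inv_mem hc
  obtain ⟨e, he⟩ := exists_res hK hx'
  have h1 := h.mul he
  rw [mul_inv_cancel₀ hx] at h1
  have h2 := h1.unique isRes_one
  rwa [eq_inv_of_mul_eq_one_right h2] at he

end

end VF

end CX
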