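import Mathlib

import Pool.Agent.Helper40.CX.H26VC.Main2
import Pool.Agent.Helper40.CX.Good

namespace CX

/-!
# Function fields containing prescribed roots
-/

set_option linter.unusedSectionVars false

namespace VF

open VC VP Function IntermediateField Polynomial

universe u

variable {k : Type u} [Field k]

lemma transcendental_ratX : Transcendental k (RatFunc.X : RatFunc k) := by
  rw [← RatFunc.algebraMap_X, transcendental_algebraMap_iff (IsFractionRing.injective k[X] (RatFunc k))]
  exact transcendental_X k

lemma adjoin_ratX : k⟮(RatFunc.X : RatFunc k)⟯ = ⊤ := by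
  rw [eq_top_iff]
  intro x _
  have hpoly : ∀ p : k[X], algebraMap k[X] (RatFunc k) p ∈ k⟮(RatFunc.X : RatFunc k)⟯ := by
    intro p
    induction p using Polynomial.induction_on with
    | C a =>
      rw [RatFunc.algebraMap_C]
      exact (k⟮(RatFunc.X : RatFunc k)⟯).algebraMap_mem a
    | add p q hp hq => rw [map_add]; exact add_mem hp hq
    | monomial n a _ =>
      rw [map_mul, map_pow, RatFunc.algebraMap_X, RatFunc.algebraMap_C]
      exact mul_mem ((k⟮(RatFunc.X : RatFunc k)⟯).algebraMap_mem a)
        (pow_mem (IntermediateField.mem_adjoin_simple_self k _) _)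
  obtain ⟨p, q, _, rfl⟩ := IsFractionRing.div_surjective (A := k[X]) x
  exact div_mem (hpoly p) (hpoly q)

lemma ff_ratFunc : IsFunctionField k (RatFunc k) := by
  refine ⟨RatFunc.X, transcendental_ratX, ?_⟩
  rw [adjoin_ratX]
  refine Module.Finite.of_surjective (R := (⊤ : IntermediateField k (RatFunc k)))
    (M := (⊤ : IntermediateField k (RatFunc k)))
    (Algebra.linearMap (⊤ : IntermediateField k (RatFunc k)) (RatFunc k)) ?_
  intro x
  exact ⟨⟨x, IntermediateField.mem_top⟩, rfl⟩

lemma ff_ext {F K : Type u} [Field F] [Algebra k F] [Field K] [Algebra k K] [Algebra F K]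
    [IsScalarTower k F K] [FiniteDimensional F K] (hF : IsFunctionField k F) :
    IsFunctionField k K := by
  obtain ⟨t, ht, hfin⟩ := hF
  have htK : Transcendental k (algebraMap F K t) :=
    (transcendental_algebraMap_iff (algebraMap F K).injective).mpr ht
  refine ⟨algebraMap F K t, htK, ?_⟩
  have a3' : IsScalarTower k⟮t⟯ F K := inferInstance
  have f1 : FiniteDimensional k⟮t⟯ K := Module.Finite.trans F K
  let e : k⟮t⟯ ≃+* k⟮algebraMap F K t⟯ :=
    ((RatFunc.algEquivOfTranscendental t ht).symm.trans
      (RatFunc.algEquivOfTranscendental (algebraMap F K t) htK)).toRingEquiv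
  have he : ∀ a : k⟮t⟯, algebraMap k⟮algebraMap F K t⟯ K (e a) = algebraMap k⟮t⟯ K a := by
    intro a
    have h : ((algebraMap k⟮algebraMap F K t⟯ K).comp
        (RatFunc.algEquivOfTranscendental (algebraMap F K t) htK).toRingEquiv.toRingHom) =
        (algebraMap k⟮t⟯ K).comp (RatFunc.algEquivOfTranscendental t ht).toRingEquiv.toRingHom := by
      apply IsFractionRing.ringHom_ext (A := k[X])
      intro x
      have h1 := ratAlg_poly (algebraMap F K t) htK x
      have h2 := ratAlg_poly t ht x
      change algebraMap k⟮algebraMap F K t⟯ K (RatFunc.algEquivOfTranscendental (algebraMap F K t) htK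
        (algebraMap k[X] (RatFunc k) x)) = _ at h1
      change algebraMap k⟮t⟯ F (RatFunc.algEquivOfTranscendental t ht
        (algebraMap k[X] (RatFunc k) x)) = _ at h2
      change algebraMap k⟮algebraMap F K t⟯ K (RatFunc.algEquivOfTranscendental (algebraMap F K t) htK
        (algebraMap k[X] (RatFunc k) x)) = algebraMap k⟮t⟯ K (RatFunc.algEquivOfTranscendental t ht
        (algebraMap k[X] (RatFunc k) x))
      rw [h1, IsScalarTower.algebraMap_apply k⟮t⟯ F K, h2, Polynomial.aeval_algebraMap_apply]
    have h3 := congrArg (fun f => f ((RatFunc.algEquivOfTranscendental t ht).symm a)) h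
    change algebraMap k⟮algebraMap F K t⟯ K (RatFunc.algEquivOfTranscendental (algebraMap F K t) htK
        ((RatFunc.algEquivOfTranscendental t ht).symm a)) = algebraMap k⟮t⟯ K
        (RatFunc.algEquivOfTranscendental t ht
        ((RatFunc.algEquivOfTranscendental t ht).symm a)) at h3
    rw [AlgEquiv.apply_symm_apply] at h3
    exact h3
  exact Module.Finite.of_equiv_equiv e (RingEquiv.refl K) (by
    ext x
    exact (he x).symm ▸ rfl)

/-- A function field containing roots of a nonzero polynomial. -/
lemma exists_splits {F : Type u} [Field F] [Algebra k F] (hF : IsFunctionField k F) (P : F[X]) :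
    ∃ (K : Type u) (_ : Field K) (_ : Algebra k K) (_ : Algebra F K) (_ : IsScalarTower k F K),
      IsFunctionField k K ∧ (P.map (algebraMap F K)).Splits := by
  refine ⟨P.SplittingField, inferInstance, inferInstance, inferInstance, inferInstance,
    ff_ext hF, SplittingField.splits P⟩

/-- A function field containing roots. -/
lemma exists_roots {F : Type u} [Field F] [Algebra k F] (hF : IsFunctionField k F) {n m : ℕ}
    (hm : m ≠ 0) (s : Fin n → F) :
    ∃ (K : Type u) (_ : Field K) (_ : Algebra k K) (_ : Algebra F K) (_ : IsScalarTower k F K)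
      (y : Fin n → K), IsFunctionField k K ∧ ∀ i, y i ^ m = algebraMap F K (s i) := by
  obtain ⟨K, _, _, _, _, hK, hs⟩ := exists_splits hF (∏ i, (X ^ m - C (s i)))
  have hne : ∀ i, (X ^ m - C (s i) : F[X]) ≠ 0 := fun i => X_pow_sub_C_ne_zero (Nat.pos_of_ne_zero hm) _
  have hroot : ∀ i, ∃ y : K, y ^ m = algebraMap F K (s i) := by
    intro i
    have h1 : ((X ^ m - C (s i) : F[X]).map (algebraMap F K)).Splits := by
      apply hs.of_dvd
      · rw [Ne, Polynomial.map_eq_zero]
        exact Finset.prod_ne_zero_iff.mpr (fun i _ => hne i)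
      · exact Polynomial.map_dvd _ (Finset.dvd_prod_of_mem _ (Finset.mem_univ i))
    obtain ⟨y, hy⟩ := h1.exists_eval_eq_zero (by
      rw [Polynomial.degree_map, degree_X_pow_sub_C (Nat.pos_of_ne_zero hm)]
      exact_mod_cast hm)
    refine ⟨y, ?_⟩
    simpa [sub_eq_zero] using hy
  choose y hy using hroot
  exact ⟨K, inferInstance, inferInstance, inferInstance, inferInstance, y, hK, hy⟩

/-- A function field with roots of given polynomials in a transcendental element. -/
lemma exists_poly_roots {n m : ℕ} (hm : m ≠ 0) (s : Fin n → k[X]) :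
    ∃ (K : Type u) (_ : Field K) (_ : Algebra k K) (τ : K) (y : Fin n → K),
      IsFunctionField k K ∧ Transcendental k τ ∧ ∀ i, y i ^ m = aeval τ (s i) := by
  obtain ⟨K, _, _, _, _, y, hK, hy⟩ := exists_roots (ff_ratFunc (k := k)) hm
    (fun i => aeval (RatFunc.X : RatFunc k) (s i))
  refine ⟨K, inferInstance, inferInstance, algebraMap (RatFunc k) K RatFunc.X, y, hK, ?_, ?_⟩
  · exact (transcendental_algebraMap_iff (algebraMap (RatFunc k) K).injective).mpr
      transcendental_ratX
  · intro i
    rw [hy, aeval_algebraMap_apply]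

lemma aeval_ne_zero {K : Type u} [Field K] [Algebra k K] {τ : K} (hτ : Transcendental k τ)
    {p : k[X]} (hp : p ≠ 0) : aeval τ p ≠ 0 := fun h => hp (transcendental_iff.mp hτ p h)

end VF

end CX
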