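import Mathlib
import Pool.Agent.Helper40.CX.H83VF.Misc
import Pool.Agent.Helper40.CX.Good2

namespace CX

/-!
# Values of points of projective space at a place
-/

namespace VF

open VC VP Function

universe u


/-- The point `p` of the projective space over `k` is the value of the point `x` with coordinates
in `K` at the place `v` of `K`: there are homogeneous coordinates `a` of `x` and `b` of `p` such
that, for all `i`, the function `a i` has the value `b i` at `v`. -/
def IsValue {k K : Type u} [Field k] [Field K] [Algebra k K] {r : ℕ} (v : Place k K)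
    (x : Projectivization K (Fin r → K)) (p : Projectivization k (Fin r → k)) : Prop :=
  ∃ (a : Fin r → K) (ha : a ≠ 0) (b : Fin r → k) (hb : b ≠ 0),
    x = Projectivization.mk K a ha ∧ p = Projectivization.mk k b hb ∧
    ∀ i, a i - algebraMap k K (b i) ∈ v.ring.nonunits

section value

variable {k K : Type u} [Field k] [Field K] [Algebra k K] {r m : ℕ} {v : Place k K}

lemma value_unique {x : Projectivization K (Fin r → K)} {p q : Projectivization k (Fin r → k)}
    (h : IsValue v x p) (h' : IsValue v x q) : p = q := by
  obtain ⟨a, ha, b, hb, rfl, rfl, hv⟩ := h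
  obtain ⟨a', ha', b', hb', hx, rfl, hv'⟩ := h'
  obtain ⟨c, hc⟩ := (Projectivization.mk_eq_mk_iff' K a a' ha ha').mp hx
  have hc' : ∀ i, c * a' i = a i := fun i => by rw [← hc]; rfl
  -- `c` is regular
  obtain ⟨j, hj⟩ := Function.ne_iff.mp hb'
  have hj1 := (show IsRes v (a' j) (b' j) from hv' j).inv_mem hj
  have hcm : c ∈ v.ring := by
    have : c = a j * (a' j)⁻¹ := by rw [← hc' j, mul_assoc, mul_inv_cancel₀ hj1.1, mul_one]
    rw [this]
    exact v.ring.mul_mem _ _ (show IsRes v (a j) (b j) from hv j).mem hj1.2
  obtain ⟨i, hi⟩ := Function.ne_iff.mp hb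
  have hi1 := (show IsRes v (a i) (b i) from hv i).inv_mem hi
  have hi0 : a' i ≠ 0 := by
    intro h0
    apply hi1.1
    rw [← hc' i, h0, mul_zero]
  -- the inverse of `c` is regular
  have hc0 : c ≠ 0 := by
    rintro rfl
    apply hi1.1
    rw [← hc' i, zero_mul]
  have hci : c⁻¹ ∈ v.ring := by
    have : c⁻¹ = a' i * (a i)⁻¹ := by
      rw [← hc' i]; field_simp
    rw [this]
    exact v.ring.mul_mem _ _ (show IsRes v (a' i) (b' i) from hv' i).mem hi1.2
  have key : ∀ l s, b l * b' s = b s * b' l := by
    intro l s
    have h1 : IsRes v (a l * a' s) (b l * b' s) :=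
      (show IsRes v (a l) (b l) from hv l).mul (show IsRes v (a' s) (b' s) from hv' s)
    have h2 : IsRes v (a s * a' l) (b s * b' l) :=
      (show IsRes v (a s) (b s) from hv s).mul (show IsRes v (a' l) (b' l) from hv' l)
    have e : a l * a' s = a s * a' l := by rw [← hc' l, ← hc' s]; ring
    rw [e] at h1
    exact h1.unique h2
  rw [Projectivization.mk_eq_mk_iff']
  refine ⟨b j * (b' j)⁻¹, funext fun l => ?_⟩
  rw [Pi.smul_apply, smul_eq_mul]
  have := key l j
  have hj' : b' j ≠ 0 := hj
  field_simp
  linear_combination -this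

variable [IsAlgClosed k] [Good k]

lemma exists_isValue (hK : IsFunctionField k K) (v : Place k K)
    (x : Projectivization K (Fin r → K)) : ∃ p, IsValue v x p := by
  induction x with
  | h a ha =>
    obtain ⟨j, hj, hj'⟩ := exists_max v.ring a ha
    choose b hb using fun i => exists_res hK (hj' i)
    have hbj : b j = 1 := by
      have h1 := hb j
      rw [mul_inv_cancel₀ hj] at h1
      exact h1.unique isRes_one
    have hb0 : b ≠ 0 := by
      intro h
      rw [h] at hbj
      exact zero_ne_one hbj
    have ha' : (fun i => a i * (a j)⁻¹) ≠ 0 := by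
      intro h
      have := congrFun h j
      simp only [Pi.zero_apply] at this
      rw [mul_inv_cancel₀ hj] at this
      exact one_ne_zero this
    refine ⟨Projectivization.mk k b hb0, _, ha', b, hb0, ?_, rfl, hb⟩
    rw [Projectivization.mk_eq_mk_iff']
    refine ⟨a j, funext fun i => ?_⟩
    rw [Pi.smul_apply, smul_eq_mul, mul_comm, mul_assoc, inv_mul_cancel₀ hj, mul_one]

end value

section eval

variable {k K : Type u} [Field k] [IsAlgClosed k] [Good k] [Field K] [Algebra k K] {r m : ℕ}

lemma res_ne_zero {v : Place k K} {a : Fin r → K} {b : Fin r → k}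
    (hb : b ≠ 0) (hv : ∀ i, IsRes v (a i) (b i)) : a ≠ 0 := by
  rintro rfl
  apply hb
  funext i
  exact ((hv i).unique isRes_zero)

end eval

end VF

end CX
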